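import Pool.Agent.Results.MP_b27257_nt.PowerSavingOrbits
import Pool.Agent.U513.AP.Sparse

/-!
# Stopping ceiling iterations near integral polynomials at simultaneous approximations

The starting file bounds the number of the `x` in a window all of whose iterates have residues modulo `q` in `S`. Here: for all points
`α` outside of a set of small Hausdorff dimension, EVERY natural number `x` near an integral polynomial at an approximation of `α` with
a large denominator has an iterate with a residue outside of `S`.
-/

set_option autoImplicit false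

open Finset

namespace Pool.Agent.Results.MP_b27257_nt.Approximations

open Pool.Agent.U513.AP
open Pool.Agent.Results.MP_b27257_nt.PowerSavingOrbits (T)

/-- Let `p > q > 1` be coprime and `S` a set of residues modulo `q` with `2 ≤ |S| < q`. There is `δ > 0` such that the property some
iterate of `x` under `x ↦ ⌈p x / q⌉` has a residue modulo `q` outside of `S` holds at approximations outside of exceptional sets of
exponent `log |S| / log q - δ`. -/
theorem result (p q : ℕ) (hq : 1 < q) (hpq : q < p) (hc : p.Coprime q) (S : Finset ℕ)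
    (hS : ∀ s ∈ S, s < q) (hS2 : 2 ≤ S.card) (hSq : S.card < q) :
    ∃ δ : ℝ, 0 < δ ∧ δ < Real.log S.card / Real.log q ∧
      AtApproximations (ι := Unit) (Real.log S.card / Real.log q - δ) (fun _ x => ∃ n, (T p q)^[n] x % q ∉ S) := by
  classical
  obtain ⟨C, δ, hC, hδ, hδ1, h⟩ := PowerSavingOrbits.result p q hq hpq hc S hS hS2 hSq
  refine ⟨δ, hδ, hδ1, sparse_law (by linarith) _ fun _ ε hε => ?_⟩
  obtain ⟨e, he⟩ : ∃ e : ℝ, e = Real.log S.card / Real.log q - δ := ⟨_, rfl⟩
  have he0 : 0 ≤ e := by rw [he]; linarith
  rw [← he] at h ⊢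
  refine ⟨C * 2 ^ e, 1, fun X hX => ?_⟩
  have hX1 : (1 : ℝ) ≤ X := by exact_mod_cast hX
  have h1 := h 0 (X + 1) (by omega)
  have hfin : {x : ℕ | 0 ≤ x ∧ x < 0 + (X + 1) ∧ ∀ n, (T p q)^[n] x % q ∈ S}.Finite :=
    (Set.finite_Iio (0 + (X + 1))).subset fun n hn => hn.2.1
  refine (Nat.cast_le.2 (Set.ncard_le_ncard ?_ hfin)).trans (h1.trans ?_)
  · rintro n ⟨_, hn2, hn3⟩
    push Not at hn3
    exact ⟨Nat.zero_le _, by omega, hn3⟩
  · calc C * ((X + 1 : ℕ) : ℝ) ^ e ≤ C * (2 * (X : ℝ)) ^ e := by
          refine mul_le_mul_of_nonneg_left (Real.rpow_le_rpow (by positivity) ?_ he0) hC.le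
          push_cast
          linarith
      _ = C * 2 ^ e * (X : ℝ) ^ e := by
          rw [Real.mul_rpow (by norm_num) (by linarith)]
          ring
      _ ≤ C * 2 ^ e * (X : ℝ) ^ (e + ε) :=
          mul_le_mul_of_nonneg_left (Real.rpow_le_rpow_of_exponent_le hX1 (by linarith)) (by positivity)

end Pool.Agent.Results.MP_b27257_nt.Approximations
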